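import Pool.Agent.K3h49.Lat.Stm

set_option autoImplicit false

namespace Pool.Agent.K3h22.Lat

open Finset
open scoped Classical
open Pool.Agent.TH83.SQ (pr)
open Pool.Agent.K3h49.Lat

/-- the smallest elements -/
theorem exists_small (P : Finset ℕ) : ∀ k : ℕ, k ≤ P.card →
    ∃ P1 ⊆ P, P1.card = k ∧ ∀ q ∈ P1, ∀ q' ∈ P \ P1, q ≤ q' := by
  intro k
  induction k with
  | zero => intro _; exact ⟨∅, empty_subset _, card_empty, by simp⟩
  | succ k ih =>
    intro hk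
    obtain ⟨P1, h1, h2, h3⟩ := ih (by omega)
    have hne : (P \ P1).Nonempty := by
      rw [← card_pos, card_sdiff_of_subset h1]; omega
    obtain ⟨q0, hq0, hmin⟩ := (P \ P1).exists_min_image id hne
    rw [mem_sdiff] at hq0
    refine ⟨insert q0 P1, insert_subset hq0.1 h1, by rw [card_insert_of_notMem hq0.2, h2], ?_⟩
    intro q hq q' hq'
    rw [mem_insert] at hq
    rw [mem_sdiff, mem_insert, not_or] at hq'
    have hq'' : q' ∈ P \ P1 := mem_sdiff.2 ⟨hq'.1, hq'.2.2⟩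
    rcases hq with rfl | hq
    · exact hmin q' hq''
    · exact h3 q hq q' hq''

theorem pr_union {A B : Finset ℕ} (h : Disjoint A B) : pr (A ∪ B) = pr A * pr B :=
  prod_union h

theorem pairs_ge (A B : Finset ℕ) (hAB : Disjoint A B) (Q r : ℤ)
    (hco : ∀ s ⊆ B, IsCoprime Q (pr s)) (β : ℝ) (hβ : 0 ≤ β)
    (h : β * 2 ^ (A.card + B.card) < (((A ∪ B).powerset.filter fun s => Q ∣ pr s - r).card : ℝ)) :
    β ^ 2 * 4 ^ A.card ≤
      (((A.powerset ×ˢ A.powerset).filter fun p => Q ∣ pr p.1 - pr p.2).card : ℝ) := by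
  have h1 : ((A ∪ B).powerset.filter fun s => Q ∣ pr s - r).card ≤
      ∑ s₀ ∈ B.powerset, (A.powerset.filter fun s₁ => Q ∣ pr s₁ * pr s₀ - r).card := by
    rw [card_eq_sum_card_fiberwise (f := fun s => s ∩ B) (t := B.powerset)
      (fun s _ => by simp)]
    refine sum_le_sum fun s₀ hs₀ => ?_
    refine card_le_card_of_injOn (fun s => s ∩ A) ?_ ?_
    · intro s hs
      simp only [coe_filter, mem_filter, mem_powerset, Set.mem_ofPred_eq] at hs ⊢
      refine ⟨inter_subset_right, ?_⟩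
      have e : s = (s ∩ A) ∪ s₀ := by
        rw [← hs.2, ← inter_union_distrib_left, inter_eq_left.2 hs.1.1]
      have hd : Disjoint (s ∩ A) s₀ := by
        rw [← hs.2]
        exact hAB.mono inter_subset_right inter_subset_right
      rw [← pr_union hd, ← e]
      exact hs.1.2
    · intro s hs s' hs' hss
      simp only [coe_filter, mem_filter, mem_powerset, Set.mem_ofPred_eq] at hs hs' hss
      have e : s = (s ∩ A) ∪ s₀ := by
        rw [← hs.2, ← inter_union_distrib_left, inter_eq_left.2 hs.1.1]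
      have e' : s' = (s' ∩ A) ∪ s₀ := by
        rw [← hs'.2, ← inter_union_distrib_left, inter_eq_left.2 hs'.1.1]
      rw [e, e', hss]
  have h2 : ∑ s₀ ∈ B.powerset, β * 2 ^ A.card <
      ∑ s₀ ∈ B.powerset, ((A.powerset.filter fun s₁ => Q ∣ pr s₁ * pr s₀ - r).card : ℝ) := by
    rw [sum_const, card_powerset, nsmul_eq_mul]
    push_cast
    have h3 : (((A ∪ B).powerset.filter fun s => Q ∣ pr s - r).card : ℝ) ≤
      ∑ s₀ ∈ B.powerset, ((A.powerset.filter fun s₁ => Q ∣ pr s₁ * pr s₀ - r).card : ℝ) := by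
      exact_mod_cast h1
    refine lt_of_lt_of_le ?_ h3
    refine lt_of_le_of_lt (le_of_eq ?_) h
    rw [pow_add]; ring
  obtain ⟨s₀, hs₀, h4⟩ := exists_lt_of_sum_lt h2
  set F := A.powerset.filter fun s₁ => Q ∣ pr s₁ * pr s₀ - r with hF
  have h5 : F ×ˢ F ⊆ (A.powerset ×ˢ A.powerset).filter fun p => Q ∣ pr p.1 - pr p.2 := by
    rintro ⟨s, s'⟩ hs
    rw [mem_product] at hs
    simp only [hF, mem_filter] at hs
    rw [mem_filter, mem_product]
    refine ⟨⟨hs.1.1, hs.2.1⟩, ?_⟩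
    have h6 : Q ∣ (pr s - pr s') * pr s₀ := by
      have := dvd_sub hs.1.2 hs.2.2
      have e : pr s * pr s₀ - r - (pr s' * pr s₀ - r) = (pr s - pr s') * pr s₀ := by ring
      rwa [e] at this
    exact (hco s₀ (mem_powerset.1 hs₀)).dvd_of_dvd_mul_right h6
  have h6 := card_le_card h5
  rw [card_product] at h6
  have h7 : ((F.card : ℝ)) * F.card ≤
      (((A.powerset ×ˢ A.powerset).filter fun p => Q ∣ pr p.1 - pr p.2).card : ℝ) := by
    exact_mod_cast h6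
  refine le_trans ?_ h7
  have h8 : 0 ≤ β * 2 ^ A.card := by positivity
  have h9 : β ^ 2 * 4 ^ A.card = (β * 2 ^ A.card) * (β * 2 ^ A.card) := by
    have : (4 : ℝ) = 2 * 2 := by norm_num
    rw [this, mul_pow]; ring
  rw [h9]
  exact mul_le_mul h4.le h4.le h8 (Nat.cast_nonneg _)

theorem pr_cast (s : Finset ℕ) : pr s = ((∏ q ∈ s, q : ℕ) : ℤ) := by
  rw [pr, Nat.cast_prod]

/-- the products of different subsets differ -/
theorem pr_ne {P : Finset ℕ} (h2 : ∀ q ∈ P, 2 ≤ q)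
    (hc : ∀ q ∈ P, ∀ q' ∈ P, q ≠ q' → Nat.Coprime q q') {s s' : Finset ℕ} (hs : s ⊆ P)
    (hs' : s' ⊆ P) (hne : s ≠ s') : pr s ≠ pr s' := by
  have key : ∀ t t' : Finset ℕ, t ⊆ P → t' ⊆ P → pr t = pr t' → t ⊆ t' := by
    intro t t' ht ht' h x hx
    by_contra hx'
    have hx2 : x ≠ 1 := by have := h2 x (ht hx); omega
    obtain ⟨p, hp, hpx⟩ := Nat.exists_prime_and_dvd hx2
    have h1 : p ∣ ∏ q ∈ t, q := hpx.trans (dvd_prod_of_mem _ hx)
    rw [pr_cast, pr_cast] at h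
    have h3 : (∏ q ∈ t, q) = ∏ q ∈ t', q := by exact_mod_cast h
    rw [h3] at h1
    obtain ⟨y, hy, hpy⟩ := (Prime.dvd_finsetProd_iff hp.prime _).1 h1
    have hxy : x ≠ y := fun e => hx' (e ▸ hy)
    have h4 := hc x (ht hx) y (ht' hy) hxy
    have h5 := Nat.dvd_gcd hpx hpy
    rw [h4.gcd_eq_one] at h5
    exact hp.one_lt.ne' (Nat.dvd_one.1 h5)
  intro h
  exact hne (Subset.antisymm (key s s' hs hs' h) (key s' s hs' hs h.symm))

theorem t_gen : GenStm := by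
  intro n hn β hβ
  obtain ⟨k, hk1, hk2⟩ : ∃ k : ℕ, 1 ≤ k ∧ 2 ≤ β ^ 2 * 2 ^ k := by
    obtain ⟨k, hk⟩ := pow_unbounded_of_one_lt (2 / β ^ 2) (by norm_num : (1 : ℝ) < 2)
    rw [div_lt_iff₀ (by positivity)] at hk
    refine ⟨k + 1, by omega, ?_⟩
    have h1 : β ^ 2 * 2 ^ (k + 1) = 2 * (2 ^ k * β ^ 2) := by rw [pow_succ]; ring
    rw [h1]
    linarith
  obtain ⟨m₀, hm₀⟩ := exists_nat_gt ((k : ℝ) + 2 * k * n / β ^ 2)
  refine ⟨m₀, fun P h2 hc hm => ?_⟩
  by_contra hcon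
  push Not at hcon
  have hn0 : (0 : ℝ) < n := by exact_mod_cast hn
  have hmk : (k : ℝ) < P.card := by
    have h1 : (m₀ : ℝ) ≤ P.card := by exact_mod_cast hm
    have h3 : 0 ≤ 2 * (k : ℝ) * n / β ^ 2 := by positivity
    linarith
  have hkP : k ≤ P.card := by
    have : k < P.card := by exact_mod_cast hmk
    omega
  obtain ⟨P1, hP1, hcard, hle⟩ := exists_small P k hkP
  set P0 := P \ P1 with hP0
  have hP0P : P0 ⊆ P := sdiff_subset
  have hc0 : P0.card = P.card - k := by rw [hP0, card_sdiff_of_subset hP1, hcard]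
  set N := ∏ q ∈ P0, q with hN
  have hN0 : N ≠ 0 := prod_ne_zero_iff.2 fun q hq => by have := h2 q (hP0P hq); omega
  set a : ℕ → ℕ := fun ℓ => N.factorization ℓ with ha
  set b : ℕ → ℕ := fun ℓ => (a ℓ - 1) / n + 1 with hb
  have hpairs : ∀ ℓ ∈ N.primeFactors, β ^ 2 * 4 ^ k ≤
      (((P1.powerset ×ˢ P1.powerset).filter fun p =>
        ((ℓ : ℤ) ^ (b ℓ)) ∣ pr p.1 - pr p.2).card : ℝ) := by
    intro ℓ hℓ
    rw [Nat.mem_primeFactors] at hℓ
    obtain ⟨hp, hdvd, -⟩ := hℓ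
    obtain ⟨q, hq, hℓq⟩ := (Prime.dvd_finsetProd_iff hp.prime _).1 hdvd
    have hnd : ∀ q' ∈ P, q' ≠ q → Nat.Coprime ℓ q' := by
      intro q' hq' hne
      exact Nat.Coprime.coprime_dvd_left hℓq (hc q (hP0P hq) q' hq' hne.symm)
    have hNq : q * ∏ q' ∈ P0.erase q, q' = N := mul_prod_erase P0 (fun q => q) hq
    have hqa : ℓ ^ a ℓ ∣ q := by
      have h3 : ℓ ^ a ℓ ∣ N := Nat.ordProj_dvd N ℓ
      rw [← hNq] at h3
      refine Nat.Coprime.dvd_of_dvd_mul_right ?_ h3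
      refine Nat.Coprime.pow_left _ (Nat.Coprime.prod_right fun q' hq' => ?_)
      rw [mem_erase] at hq'
      exact hnd q' (hP0P hq'.2) hq'.1
    have ha1 : 1 ≤ a ℓ := hp.factorization_pos_of_dvd hN0 hdvd
    have hba : n * (b ℓ - 1) + 1 ≤ a ℓ := by
      have h3 : n * ((a ℓ - 1) / n) ≤ a ℓ - 1 := Nat.mul_div_le _ _
      have h4 : b ℓ - 1 = (a ℓ - 1) / n := by simp [hb]
      rw [h4]; omega
    obtain ⟨r, hr⟩ := hcon q (hP0P hq) ℓ (b ℓ) hp (by simp [hb]) ((pow_dvd_pow ℓ hba).trans hqa)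
    have hq1 : q ∉ P1 := (mem_sdiff.1 hq).2
    have hunion : P.erase q = P1 ∪ P0.erase q := by
      ext x
      simp only [mem_erase, mem_union, hP0, mem_sdiff]
      constructor
      · rintro ⟨h3, h4⟩
        by_cases h5 : x ∈ P1
        · exact Or.inl h5
        · exact Or.inr ⟨h3, h4, h5⟩
      · rintro (h3 | ⟨h3, h4, h5⟩)
        · exact ⟨fun e => hq1 (e ▸ h3), hP1 h3⟩
        · exact ⟨h3, h4⟩
    have hdisj : Disjoint P1 (P0.erase q) := by
      refine Disjoint.mono_right (erase_subset _ _) ?_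
      exact disjoint_sdiff
    have hcc : P1.card + (P0.erase q).card = P.card - 1 := by
      rw [← card_union_of_disjoint hdisj, ← hunion, card_erase_of_mem (hP0P hq)]
    rw [hunion, ← hcc] at hr
    have h5 := pairs_ge P1 (P0.erase q) hdisj ((ℓ : ℤ) ^ (b ℓ)) r ?_ β hβ.le hr
    · rwa [hcard] at h5
    · intro s hs
      refine IsCoprime.pow_left (IsCoprime.prod_right fun q' hq' => ?_)
      have h6 := hs hq'
      rw [mem_erase] at h6
      exact Nat.isCoprime_iff_coprime.2 (hnd q' (hP0P h6.2) h6.1)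
  set D := (P1.powerset ×ˢ P1.powerset).filter (fun p => p.1 ≠ p.2) with hD
  have hDc : (D.card : ℝ) ≤ 4 ^ k := by
    have h3 : D.card ≤ (P1.powerset ×ˢ P1.powerset).card := card_filter_le _ _
    rw [card_product, card_powerset, hcard] at h3
    have h4 : (D.card : ℝ) ≤ (2 : ℝ) ^ k * 2 ^ k := by exact_mod_cast h3
    refine h4.trans (le_of_eq ?_)
    rw [← mul_pow]; norm_num
  have hD2 : ∀ ℓ ∈ N.primeFactors, β ^ 2 / 2 * 4 ^ k ≤
      ((D.filter fun p => ((ℓ : ℤ) ^ (b ℓ)) ∣ pr p.1 - pr p.2).card : ℝ) := by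
    intro ℓ hℓ
    have h3 := hpairs ℓ hℓ
    have h4 : ((P1.powerset ×ˢ P1.powerset).filter fun p =>
        ((ℓ : ℤ) ^ (b ℓ)) ∣ pr p.1 - pr p.2) ⊆
        (D.filter fun p => ((ℓ : ℤ) ^ (b ℓ)) ∣ pr p.1 - pr p.2) ∪
          P1.powerset.image (fun s => (s, s)) := by
      rintro ⟨s, s'⟩ hs
      rw [mem_filter] at hs
      rw [mem_union]
      by_cases he : s = s'
      · right
        subst he
        exact mem_image.2 ⟨s, (mem_product.1 hs.1).1, rfl⟩
      · left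
        exact mem_filter.2 ⟨mem_filter.2 ⟨hs.1, he⟩, hs.2⟩
    have h5 := (card_le_card h4).trans (card_union_le _ _)
    have h6 : (P1.powerset.image (fun s => (s, s))).card ≤ 2 ^ k := by
      refine card_image_le.trans ?_
      rw [card_powerset, hcard]
    have h7 := h5.trans (Nat.add_le_add_left h6 _)
    have h8 : (((P1.powerset ×ˢ P1.powerset).filter fun p =>
        ((ℓ : ℤ) ^ (b ℓ)) ∣ pr p.1 - pr p.2).card : ℝ) ≤
        ((D.filter fun p => ((ℓ : ℤ) ^ (b ℓ)) ∣ pr p.1 - pr p.2).card : ℝ) + 2 ^ k := by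
      exact_mod_cast h7
    have h9 : (2 : ℝ) ^ k ≤ β ^ 2 / 2 * 4 ^ k := by
      have h10 : (4 : ℝ) ^ k = 2 ^ k * 2 ^ k := by rw [← mul_pow]; norm_num
      rw [h10]
      have h11 : (0 : ℝ) < 2 ^ k := by positivity
      nlinarith
    linarith
  have hprpos : ∀ s ⊆ P1, 0 < pr s := by
    intro s hs
    refine prod_pos fun q hq => ?_
    have := h2 q (hP1 (hs hq))
    exact_mod_cast (by omega : 0 < q)
  have hprle : ∀ s ⊆ P1, pr s ≤ pr P1 := by
    intro s hs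
    rw [pr_cast, pr_cast]
    have : (∏ q ∈ s, q) ≤ ∏ q ∈ P1, q :=
      prod_le_prod_of_subset_of_one_le' hs fun q hq _ => by
        have := h2 q (hP1 hq); omega
    exact_mod_cast this
  set S1 : ℝ := ∑ q ∈ P1, Real.log q with hS1
  set S0 : ℝ := ∑ q ∈ P0, Real.log q with hS0
  have hlogP1 : Real.log ((pr P1 : ℤ) : ℝ) = S1 := by
    rw [pr_cast, Int.cast_natCast, Nat.cast_prod, Real.log_prod]
    intro q hq
    have := h2 q (hP1 hq)
    exact_mod_cast (by omega : q ≠ 0)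
  have hlogN : Real.log (N : ℝ) = S0 := by
    rw [hN, Nat.cast_prod, Real.log_prod]
    intro q hq
    have := h2 q (hP0P hq)
    exact_mod_cast (by omega : q ≠ 0)
  have hinner : ∀ p ∈ D, ∑ ℓ ∈ N.primeFactors.filter (fun ℓ : ℕ => ((ℓ : ℤ) ^ (b ℓ)) ∣ pr p.1 - pr p.2),
      (b ℓ : ℝ) * Real.log ℓ ≤ S1 := by
    rintro ⟨s, s'⟩ hp
    rw [hD, mem_filter, mem_product, mem_powerset, mem_powerset] at hp
    obtain ⟨⟨hs, hs'⟩, hne⟩ := hp
    simp only at hs hs' hne ⊢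
    set E := N.primeFactors.filter (fun ℓ : ℕ => ((ℓ : ℤ) ^ (b ℓ)) ∣ pr s - pr s') with hE
    have hEp : ∀ ℓ ∈ E, ℓ.Prime := fun ℓ hℓ => Nat.prime_of_mem_primeFactors (mem_filter.1 hℓ).1
    have h3 : (∏ ℓ ∈ E, (ℓ : ℤ) ^ (b ℓ)) ∣ pr s - pr s' := by
      refine prod_dvd_of_coprime ?_ fun ℓ hℓ => (mem_filter.1 hℓ).2
      intro ℓ hℓ ℓ' hℓ' hne'
      refine IsCoprime.pow (Nat.isCoprime_iff_coprime.2 ?_)
      exact (Nat.coprime_primes (hEp ℓ hℓ) (hEp ℓ' hℓ')).2 hne'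
    have h4 : pr s - pr s' ≠ 0 :=
      sub_ne_zero.2 (pr_ne h2 hc (hs.trans hP1) (hs'.trans hP1) hne)
    have h5 : (∏ ℓ ∈ E, (ℓ : ℤ) ^ (b ℓ)) ≤ |pr s - pr s'| :=
      Int.le_of_dvd (abs_pos.2 h4) ((dvd_abs _ _).2 h3)
    have h6 : |pr s - pr s'| ≤ pr P1 := by
      have q1 := hprpos s hs
      have q2 := hprpos s' hs'
      have q3 := hprle s hs
      have q4 := hprle s' hs'
      rw [abs_le]
      constructor <;> linarith
    have h7 : (∏ ℓ ∈ E, (ℓ : ℝ) ^ (b ℓ)) ≤ ((pr P1 : ℤ) : ℝ) := by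
      have := h5.trans h6
      have h8 : (((∏ ℓ ∈ E, (ℓ : ℤ) ^ (b ℓ)) : ℤ) : ℝ) ≤ ((pr P1 : ℤ) : ℝ) := by exact_mod_cast this
      refine le_trans (le_of_eq ?_) h8
      push_cast
      rfl
    have h8 : 0 < ∏ ℓ ∈ E, (ℓ : ℝ) ^ (b ℓ) := prod_pos fun ℓ hℓ => by
      have := (hEp ℓ hℓ).pos
      positivity
    have h9 := Real.log_le_log h8 h7
    rw [hlogP1, Real.log_prod] at h9
    · simpa only [Real.log_pow] using h9
    · intro ℓ hℓ
      have := (hEp ℓ hℓ).pos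
      positivity
  have hw0 : ∀ ℓ : ℕ, 0 ≤ (b ℓ : ℝ) * Real.log ℓ := fun ℓ =>
    mul_nonneg (Nat.cast_nonneg _) (Real.log_natCast_nonneg _)
  have hdouble : ∑ ℓ ∈ N.primeFactors, (b ℓ : ℝ) * Real.log ℓ *
      ((D.filter fun p => ((ℓ : ℤ) ^ (b ℓ)) ∣ pr p.1 - pr p.2).card : ℝ) =
      ∑ p ∈ D, ∑ ℓ ∈ N.primeFactors.filter (fun ℓ : ℕ => ((ℓ : ℤ) ^ (b ℓ)) ∣ pr p.1 - pr p.2),
      (b ℓ : ℝ) * Real.log ℓ := by
    simp only [sum_filter]
    rw [sum_comm]
    refine sum_congr rfl fun ℓ _ => ?_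
    rw [card_filter]
    push_cast
    rw [mul_sum]
    refine sum_congr rfl fun p _ => ?_
    rw [mul_ite, mul_one, mul_zero]
  have h10 : ∑ ℓ ∈ N.primeFactors, (b ℓ : ℝ) * Real.log ℓ * (β ^ 2 / 2 * 4 ^ k) ≤ 4 ^ k * S1 := by
    have hS1n : 0 ≤ S1 := sum_nonneg fun q _ => Real.log_natCast_nonneg _
    calc _ ≤ ∑ ℓ ∈ N.primeFactors, (b ℓ : ℝ) * Real.log ℓ *
        ((D.filter fun p => ((ℓ : ℤ) ^ (b ℓ)) ∣ pr p.1 - pr p.2).card : ℝ) :=
          sum_le_sum fun ℓ hℓ => mul_le_mul_of_nonneg_left (hD2 ℓ hℓ) (hw0 ℓ)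
      _ ≤ ∑ p ∈ D, S1 := by
          rw [hdouble]
          exact sum_le_sum hinner
      _ = D.card * S1 := by rw [sum_const, nsmul_eq_mul]
      _ ≤ 4 ^ k * S1 := mul_le_mul_of_nonneg_right hDc hS1n
  have h11 : S0 ≤ n * ∑ ℓ ∈ N.primeFactors, (b ℓ : ℝ) * Real.log ℓ := by
    rw [← hlogN, Real.log_nat_eq_sum_factorization, Finsupp.sum, Nat.support_factorization, mul_sum]
    refine sum_le_sum fun ℓ hℓ => ?_
    rw [← mul_assoc]
    refine mul_le_mul_of_nonneg_right ?_ (Real.log_natCast_nonneg _)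
    have h12 : N.factorization ℓ ≤ n * b ℓ := by
      have h13 : a ℓ - 1 < n * ((a ℓ - 1) / n + 1) := Nat.lt_mul_div_succ _ hn
      change a ℓ ≤ n * b ℓ
      simp only [hb]
      omega
    exact_mod_cast h12
  have h12 : ((P.card : ℝ) - k) * S1 ≤ k * S0 := by
    have h13 : ∑ q ∈ P1, ∑ q' ∈ P0, Real.log q ≤ ∑ q ∈ P1, ∑ q' ∈ P0, Real.log q' := by
      refine sum_le_sum fun q hq => sum_le_sum fun q' hq' => ?_
      refine Real.log_le_log ?_ ?_
      · have := h2 q (hP1 hq)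
        exact_mod_cast (by omega : 0 < q)
      · exact_mod_cast hle q hq q' hq'
    simp only [sum_const, nsmul_eq_mul, ← mul_sum] at h13
    rw [hcard, hc0, Nat.cast_sub hkP] at h13
    exact h13
  have hS1p : 0 < S1 := by
    refine sum_pos (fun q hq => Real.log_pos ?_) ?_
    · have := h2 q (hP1 hq)
      exact_mod_cast (by omega : 1 < q)
    · rw [← card_pos, hcard]; omega
  rw [← sum_mul] at h10
  set SW := ∑ ℓ ∈ N.primeFactors, (b ℓ : ℝ) * Real.log ℓ 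
  have h14 : SW * (β ^ 2 / 2) ≤ S1 := by
    have h4k : (0 : ℝ) < 4 ^ k := by positivity
    have : (SW * (β ^ 2 / 2)) * 4 ^ k ≤ S1 * 4 ^ k := by
      calc (SW * (β ^ 2 / 2)) * 4 ^ k = SW * (β ^ 2 / 2 * 4 ^ k) := by ring
        _ ≤ 4 ^ k * S1 := h10
        _ = S1 * 4 ^ k := by ring
    exact le_of_mul_le_mul_right this h4k
  have hk0 : (0 : ℝ) < k := by exact_mod_cast hk1
  have h15 : ((P.card : ℝ) - k) * S1 * β ^ 2 ≤ (2 * k * n) * S1 := by
    have q1 : ((P.card : ℝ) - k) * S1 * β ^ 2 ≤ (k * S0) * β ^ 2 :=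
      mul_le_mul_of_nonneg_right h12 (by positivity)
    have q2 : (k * S0) * β ^ 2 ≤ (k * (n * SW)) * β ^ 2 :=
      mul_le_mul_of_nonneg_right (mul_le_mul_of_nonneg_left h11 hk0.le) (by positivity)
    have q3 : (k * (n * SW)) * β ^ 2 = (2 * k * n) * (SW * (β ^ 2 / 2)) := by ring
    have q4 : (2 * k * n) * (SW * (β ^ 2 / 2)) ≤ (2 * k * n) * S1 :=
      mul_le_mul_of_nonneg_left h14 (by positivity)
    linarith
  have h16 : ((P.card : ℝ) - k) * β ^ 2 ≤ 2 * k * n := by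
    have : (((P.card : ℝ) - k) * β ^ 2) * S1 ≤ (2 * k * n) * S1 := by linarith
    exact le_of_mul_le_mul_right this hS1p
  have h17 : (P.card : ℝ) - k ≤ 2 * k * n / β ^ 2 := by
    rw [le_div_iff₀ (by positivity)]; exact h16
  have h18 : (m₀ : ℝ) ≤ P.card := by exact_mod_cast hm
  linarith

end Pool.Agent.K3h22.Lat
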